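import Mathlib

set_option autoImplicit false

open Matrix

namespace Pool.Agent.Results.MP_513688_co.NotCospectral

/-- the weighted digraph of the counterexample, with integer weights -/
def A₀ : Matrix (Fin 4) (Fin 4) ℤ := !![2, 0, 2, 0; 0, 1, 1, 2; 0, 1, 1, 2; 2, 2, 0, 0]

/-- the same matrix over a ring -/
def A (R : Type) [Ring R] : Matrix (Fin 4) (Fin 4) R := A₀.map (Int.castRingHom R)

theorem A_pow (R : Type) [Ring R] (n : ℕ) : A R ^ n = (A₀ ^ n).map (Int.castRingHom R) := by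
  unfold A
  induction n with
  | zero => simp
  | succ n ih => rw [pow_succ, pow_succ, ih, Matrix.map_mul]

theorem A₀_four : A₀ ^ 4 = 4 • A₀ ^ 3 := by decide

theorem A₀_pow (n : ℕ) : A₀ ^ (n + 3) = (4 ^ n) • A₀ ^ 3 := by
  induction n with
  | zero => simp
  | succ n ih =>
    rw [show n + 1 + 3 = (n + 3) + 1 by ring, pow_succ, ih, smul_mul_assoc, ← pow_succ, A₀_four,
      smul_smul, ← pow_succ]

theorem diag_eq (n : ℕ) (hn : 3 ≤ n) : (A₀ ^ n) 0 0 = (A₀ ^ n) 1 1 := by
  obtain ⟨m, rfl⟩ : ∃ m, n = m + 3 := ⟨n - 3, by omega⟩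
  rw [A₀_pow]
  have h : (A₀ ^ 3) 0 0 = (A₀ ^ 3) 1 1 := by decide
  simp only [Matrix.smul_apply, h]

theorem diag_two : (A₀ ^ 2) 0 0 - (A₀ ^ 2) 1 1 = -2 := by decide

theorem exp_diag : (NormedSpace.exp (A ℝ)) 0 0 = (NormedSpace.exp (A ℝ)) 1 1 := by
  letI : NormedRing (Matrix (Fin 4) (Fin 4) ℝ) := Matrix.linftyOpNormedRing
  letI : NormedAlgebra ℝ (Matrix (Fin 4) (Fin 4) ℝ) := Matrix.linftyOpNormedAlgebra
  have h1 := NormedSpace.exp_series_hasSum_exp' (𝕂 := ℝ) (A ℝ)
  have h2 : ∀ i : Fin 4, HasSum (fun n : ℕ => ((n.factorial : ℝ)⁻¹) * (A ℝ ^ n) i i)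
      ((NormedSpace.exp (A ℝ)) i i) := by
    intro i
    exact (Pi.hasSum.1 ((Pi.hasSum.1 h1) i)) i
  have h4 := (h2 0).sub (h2 1)
  have h5 : HasSum (fun n : ℕ => ((n.factorial : ℝ)⁻¹) * (A ℝ ^ n) 0 0 -
      ((n.factorial : ℝ)⁻¹) * (A ℝ ^ n) 1 1)
      (∑ n ∈ Finset.range 3, (((n.factorial : ℝ)⁻¹) * (A ℝ ^ n) 0 0 -
      ((n.factorial : ℝ)⁻¹) * (A ℝ ^ n) 1 1)) := by
    refine hasSum_sum_of_ne_finset_zero fun n hn => ?_
    rw [Finset.mem_range, not_lt] at hn
    rw [← mul_sub, A_pow]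
    simp only [Matrix.map_apply]
    rw [diag_eq n hn, sub_self, mul_zero]
  have h6 := h4.unique h5
  have e0 : (A ℝ ^ 0) 0 0 - (A ℝ ^ 0) 1 1 = 0 := by simp
  have e1 : (A ℝ ^ 1) 0 0 - (A ℝ ^ 1) 1 1 = 1 := by
    rw [pow_one]
    simp only [A, Matrix.map_apply, ← map_sub]
    have : A₀ 0 0 - A₀ 1 1 = 1 := by decide
    rw [this]; simp
  have e2 : (A ℝ ^ 2) 0 0 - (A ℝ ^ 2) 1 1 = -2 := by
    rw [A_pow]
    simp only [Matrix.map_apply, ← map_sub]
    rw [diag_two]; simp
  have h7 : (∑ n ∈ Finset.range 3, (((n.factorial : ℝ)⁻¹) * (A ℝ ^ n) 0 0 -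
      ((n.factorial : ℝ)⁻¹) * (A ℝ ^ n) 1 1)) = 0 := by
    simp only [← mul_sub]
    rw [Finset.sum_range_succ, Finset.sum_range_succ, Finset.sum_range_succ,
      Finset.sum_range_zero, e0, e1, e2]
    norm_num [Nat.factorial]
  rw [h7] at h6
  linarith

theorem not_diag (P : Matrix (Fin 4) (Fin 4) ℂ) (d : Fin 4 → ℂ) (hP : IsUnit P)
    (h : A ℂ * P = P * Matrix.diagonal d) : False := by
  obtain ⟨Q, hQ⟩ := hP.exists_right_inv
  have hpow : ∀ n : ℕ, A ℂ ^ n * P = P * Matrix.diagonal (fun i => d i ^ n) := by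
    intro n
    induction n with
    | zero => simp
    | succ n ih =>
      rw [pow_succ, mul_assoc, h, ← mul_assoc, ih, mul_assoc, Matrix.diagonal_mul_diagonal]
      congr 2
  have h4 : A ℂ ^ 4 = 4 • A ℂ ^ 3 := by
    rw [A_pow, A_pow, A₀_four]
    ext i j
    simp only [Matrix.map_apply, Matrix.smul_apply, map_nsmul]
  have h5 : P * Matrix.diagonal (fun i => d i ^ 4) = P * Matrix.diagonal (fun i => 4 * d i ^ 3) := by
    rw [← hpow 4, h4, smul_mul_assoc, hpow 3]
    rw [← mul_smul_comm]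
    congr 1
    ext i j
    by_cases hij : i = j
    · subst hij; simp
    · simp [Matrix.diagonal_apply_ne _ hij]
  obtain ⟨R, hR⟩ := hP.exists_left_inv
  have h6 : Matrix.diagonal (fun i => d i ^ 4) = Matrix.diagonal (fun i => 4 * d i ^ 3) := by
    have := congrArg (fun M => R * M) h5
    simp only [← mul_assoc, hR, one_mul] at this
    exact this
  have h7 : ∀ i, d i ^ 2 = 4 * d i := by
    intro i
    have h8 := congrFun (congrFun h6 i) i
    simp only [Matrix.diagonal_apply_eq] at h8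
    have h9 : d i ^ 3 * (d i - 4) = 0 := by linear_combination h8
    rcases mul_eq_zero.1 h9 with h | h
    · have : d i = 0 := by simpa using h
      rw [this]; ring
    · have : d i = 4 := by linear_combination h
      rw [this]; ring
  have h10 : A ℂ ^ 2 * P = 4 • A ℂ * P := by
    rw [hpow 2, smul_mul_assoc, h, ← mul_smul_comm]
    congr 1
    ext i j
    by_cases hij : i = j
    · subst hij; simp [h7]
    · simp [Matrix.diagonal_apply_ne _ hij]
  have h11 : A ℂ ^ 2 = 4 • A ℂ := by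
    have := congrArg (fun M => M * Q) h10
    simp only [mul_assoc, hQ, mul_one] at this
    exact this
  have h12 := congrFun (congrFun h11 0) 0
  rw [A_pow] at h12
  simp only [A, Matrix.map_apply, Matrix.smul_apply] at h12
  have e1 : (A₀ ^ 2) 0 0 = 4 := by decide
  have e2 : A₀ 0 0 = 2 := by decide
  rw [e1, e2] at h12
  norm_num at h12

/-- **Subgraph equivalent vertices need not be cospectral.** There are a `4 × 4` matrix with
nonnegative integer entries, not diagonalizable over the complex numbers, and two vertices whose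
diagonal entries in `e^A` (so `β = 1`) agree although the diagonal entries of a power of `A`
differ. -/
theorem result :
    ∃ (A : Matrix (Fin 4) (Fin 4) ℝ) (β : ℝ) (i j : Fin 4),
      (∀ u v, 0 ≤ A u v ∧ IsAlgebraic ℚ (A u v)) ∧
      (¬ ∃ (P : Matrix (Fin 4) (Fin 4) ℂ) (d : Fin 4 → ℂ), IsUnit P ∧
        A.map (algebraMap ℝ ℂ) * P = P * Matrix.diagonal d) ∧
      β ≠ 0 ∧ IsAlgebraic ℚ β ∧
      (NormedSpace.exp (β • A)) i i = (NormedSpace.exp (β • A)) j j ∧
      ∃ r : ℕ, (A ^ r) i i ≠ (A ^ r) j j := by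
  refine ⟨A ℝ, 1, 0, 1, ?_, ?_, one_ne_zero, isAlgebraic_one, ?_, 1, ?_⟩
  · intro u v
    constructor
    · simp only [A, Matrix.map_apply]
      have : 0 ≤ A₀ u v := by revert u v; decide
      simpa using this
    · simp only [A, Matrix.map_apply]
      exact isAlgebraic_intCast _
  · rintro ⟨P, d, hP, h⟩
    refine not_diag P d hP ?_
    have : (A ℝ).map (algebraMap ℝ ℂ) = A ℂ := by
      ext i j
      simp [A, Matrix.map_apply]
    rw [← this]
    exact h
  · rw [one_smul]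
    exact exp_diag
  · rw [pow_one]
    simp only [A, Matrix.map_apply]
    have e1 : A₀ 0 0 = 2 := by decide
    have e2 : A₀ 1 1 = 1 := by decide
    rw [e1, e2]
    norm_num

end Pool.Agent.Results.MP_513688_co.NotCospectral
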